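import Pool.Agent.W2helper33.RL.Fin

set_option autoImplicit false

/-!
# Reflective lattices `2U + L(-1)` of signature `(2, 22)`: `L` lies in the genus of `2E_8 + D_4`

The definitions used by the statement are in `Pool/Agent/Y813/RL/Defs.lean`.
-/

namespace Pool.Agent.Results.MP_f1d0b6_nt.GenusTwoE8D4

open Pool.Agent.Y813.Refl

/-- Let `G` be a Gram matrix of an even positive definite lattice `L` of rank `20` and let
`M = 2U + L(-1)`. If `M` is reflective (for the component of the domain containing `Z₀`, which is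
arbitrary), then `L` lies in the genus of `2E_8 + D_4`. -/
theorem result (G : Matrix (Fin 20) (Fin 20) ℤ) (hsymm : G.IsSymm)
    (hpos : ∀ x : Fin 20 → ℝ, x ≠ 0 → 0 < form G x x) (heven : ∀ i, Even (G i i))
    (Z₀ : Fin 4 ⊕ Fin 20 → ℂ) (hZ₀ : Z₀ ∈ quadric (gramM G))
    (hR : IsReflectiveLattice (gramM G) (connectedComponentIn (quadric (gramM G)) Z₀)) :
    SameGenus G gramEED :=
  Pool.Agent.W2helper33.RL.final ⟨hsymm, hpos⟩ heven hZ₀ hR

end Pool.Agent.Results.MP_f1d0b6_nt.GenusTwoE8D4
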